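import Pool.Agent.K1H2.UB.Stm

/-!
# Piece GRV of the project UB: the gradient of the Green function
-/

set_option autoImplicit false

open Finset Pool.Agent.K1H53.BI Pool.Agent.K1H2.UB

namespace Pool.Agent.K1H11.UB

/-- the real inequality -/
theorem core {C c1 a b A h δ : ℝ} (hC : 1 ≤ C) (hc1 : 0 < c1) (ha : 0 < a) (hb : 0 < b)
    (hA1 : b ^ 3 / 16 ≤ A) (hA2 : A ≤ b ^ 3) (hδ : 1 + C / c1 + 16 * C ≤ δ) (hh : δ ≤ h)
    (had : a * (c1 * δ) ≤ 1) (hyp : -(C * a ^ 3) ≤ a - b) :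
    min (1 / 128) (7 * c1 ^ 2 / 16) * δ ^ 2 * a ^ 6 ≤ (a - b) * (a ^ 3 - A) + h ^ 2 * (A * a ^ 3) := by
  have hC0 : 0 < C := by linarith
  have hcc : 0 < C / c1 := by positivity
  have hδ0 : 0 < δ := by linarith
  have hA0 : 0 < A := lt_of_lt_of_le (by positivity) hA1
  have ha3 : 0 < a ^ 3 := by positivity
  have ha6 : 0 < a ^ 6 := by positivity
  have hcm1 : min (1 / 128) (7 * c1 ^ 2 / 16) ≤ 1 / 128 := min_le_left _ _
  have hcm2 : min (1 / 128) (7 * c1 ^ 2 / 16) ≤ 7 * c1 ^ 2 / 16 := min_le_right _ _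
  have hsq : δ ^ 2 ≤ h ^ 2 := pow_le_pow_left₀ hδ0.le hh 2
  have hh2 : δ ^ 2 * (A * a ^ 3) ≤ h ^ 2 * (A * a ^ 3) :=
    mul_le_mul_of_nonneg_right hsq (by positivity)
  have hd6 : 0 < δ ^ 2 * a ^ 6 := by positivity
  rcases le_or_gt b a with hba | hba
  · have hb3 : b ^ 3 ≤ a ^ 3 := pow_le_pow_left₀ hb.le hba 3
    rcases le_or_gt (a / 2) b with h2 | h2
    · -- case (i)
      have h3 : (a / 2) ^ 3 ≤ b ^ 3 := pow_le_pow_left₀ (by positivity) h2 3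
      have h4 : 0 ≤ (a - b) * (a ^ 3 - A) := mul_nonneg (by linarith) (by linarith)
      have h5 : a ^ 3 / 128 ≤ A := by
        have : (a / 2) ^ 3 = a ^ 3 / 8 := by ring
        linarith
      have h6 : δ ^ 2 * (a ^ 3 / 128 * a ^ 3) ≤ δ ^ 2 * (A * a ^ 3) :=
        mul_le_mul_of_nonneg_left (mul_le_mul_of_nonneg_right h5 ha3.le) (by positivity)
      have h7 : min (1 / 128) (7 * c1 ^ 2 / 16) * (δ ^ 2 * a ^ 6) ≤ 1 / 128 * (δ ^ 2 * a ^ 6) :=
        mul_le_mul_of_nonneg_right hcm1 hd6.le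
      have h8 : δ ^ 2 * (a ^ 3 / 128 * a ^ 3) = 1 / 128 * (δ ^ 2 * a ^ 6) := by ring
      calc min (1 / 128) (7 * c1 ^ 2 / 16) * δ ^ 2 * a ^ 6
          = min (1 / 128) (7 * c1 ^ 2 / 16) * (δ ^ 2 * a ^ 6) := by ring
        _ ≤ (a - b) * (a ^ 3 - A) + h ^ 2 * (A * a ^ 3) := by linarith
    · -- case (iii)
      have h3 : b ^ 3 ≤ (a / 2) ^ 3 := pow_le_pow_left₀ hb.le h2.le 3
      have h4 : 7 / 8 * a ^ 3 ≤ a ^ 3 - A := by
        have : (a / 2) ^ 3 = a ^ 3 / 8 := by ring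
        linarith
      have h5 : a / 2 * (7 / 8 * a ^ 3) ≤ (a - b) * (a ^ 3 - A) :=
        mul_le_mul (by linarith) h4 (by positivity) (by linarith)
      have h6 : (a * (c1 * δ)) ^ 2 ≤ 1 := by
        have : (a * (c1 * δ)) ^ 2 ≤ 1 ^ 2 := pow_le_pow_left₀ (by positivity) had 2
        linarith
      have h7 : min (1 / 128) (7 * c1 ^ 2 / 16) * (δ ^ 2 * a ^ 6) ≤
          7 * c1 ^ 2 / 16 * (δ ^ 2 * a ^ 6) :=
        mul_le_mul_of_nonneg_right hcm2 hd6.le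
      have h8 : 7 * c1 ^ 2 / 16 * (δ ^ 2 * a ^ 6) = 7 / 16 * a ^ 4 * (a * (c1 * δ)) ^ 2 := by ring
      have h9 : 7 / 16 * a ^ 4 * (a * (c1 * δ)) ^ 2 ≤ 7 / 16 * a ^ 4 * 1 :=
        mul_le_mul_of_nonneg_left h6 (by positivity)
      have h10 : a / 2 * (7 / 8 * a ^ 3) = 7 / 16 * a ^ 4 * 1 := by ring
      have h11 : 0 ≤ h ^ 2 * (A * a ^ 3) := by positivity
      calc min (1 / 128) (7 * c1 ^ 2 / 16) * δ ^ 2 * a ^ 6
          = min (1 / 128) (7 * c1 ^ 2 / 16) * (δ ^ 2 * a ^ 6) := by ring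
        _ ≤ (a - b) * (a ^ 3 - A) + h ^ 2 * (A * a ^ 3) := by linarith
  · -- case (ii)
    have hb3 : a ^ 3 ≤ b ^ 3 := pow_le_pow_left₀ ha.le hba.le 3
    have hab : b - a ≤ C * a ^ 3 := by linarith
    have hac : C * a ^ 2 ≤ 1 := by
      have h1 : C ≤ c1 * δ := by
        have : c1 * (C / c1) ≤ c1 * δ := mul_le_mul_of_nonneg_left (by linarith) hc1.le
        have e : c1 * (C / c1) = C := by field_simp
        linarith
      have h2 : a * C ≤ 1 := (mul_le_mul_of_nonneg_left h1 ha.le).trans had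
      have h3 : a ≤ a * C := by nlinarith
      have h4 : a ≤ 1 := h3.trans h2
      calc C * a ^ 2 = (a * C) * a := by ring
        _ ≤ 1 * 1 := mul_le_mul h2 h4 ha.le (by norm_num)
        _ = 1 := by norm_num
    have hb2 : b ≤ 2 * a := by
      have : C * a ^ 3 = (C * a ^ 2) * a := by ring
      have h2 : (C * a ^ 2) * a ≤ 1 * a := mul_le_mul_of_nonneg_right hac ha.le
      linarith
    have hb8 : b ^ 3 ≤ 8 * a ^ 3 := by
      have h1 : b ^ 3 ≤ (2 * a) ^ 3 := pow_le_pow_left₀ hb.le hb2 3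
      have h2 : (2 * a) ^ 3 = 8 * a ^ 3 := by ring
      linarith
    -- the first term
    have h1 : -(8 * C * a ^ 6) ≤ (a - b) * (a ^ 3 - A) := by
      have h2 : (b - a) * (a ^ 3 - A) ≤ (C * a ^ 3) * (8 * a ^ 3) :=
        (mul_le_mul_of_nonneg_left (by linarith) (by linarith)).trans
          (mul_le_mul_of_nonneg_right hab (by positivity))
      have h3 : (a - b) * (a ^ 3 - A) = -((b - a) * (a ^ 3 - A)) := by ring
      have h4 : (C * a ^ 3) * (8 * a ^ 3) = 8 * C * a ^ 6 := by ring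
      linarith
    have h2 : δ ^ 2 * (a ^ 3 / 16 * a ^ 3) ≤ δ ^ 2 * (A * a ^ 3) :=
      mul_le_mul_of_nonneg_left (mul_le_mul_of_nonneg_right (by linarith) ha3.le) (by positivity)
    have h3 : 256 * C ≤ δ ^ 2 := by
      have h4 : (16 * C) ^ 2 ≤ δ ^ 2 := pow_le_pow_left₀ (by positivity) (by linarith) 2
      nlinarith
    have h7 : min (1 / 128) (7 * c1 ^ 2 / 16) * (δ ^ 2 * a ^ 6) ≤ 1 / 128 * (δ ^ 2 * a ^ 6) :=
      mul_le_mul_of_nonneg_right hcm1 hd6.le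
    have h8 : 256 * C * a ^ 6 ≤ δ ^ 2 * a ^ 6 := mul_le_mul_of_nonneg_right h3 ha6.le
    have h9 : δ ^ 2 * (a ^ 3 / 16 * a ^ 3) = 1 / 16 * (δ ^ 2 * a ^ 6) := by ring
    calc min (1 / 128) (7 * c1 ^ 2 / 16) * δ ^ 2 * a ^ 6
        = min (1 / 128) (7 * c1 ^ 2 / 16) * (δ ^ 2 * a ^ 6) := by ring
      _ ≤ (a - b) * (a ^ 3 - A) + h ^ 2 * (A * a ^ 3) := by linarith

theorem q_nonneg (w : Fin 3 → ℝ) : 0 ≤ q w := Finset.sum_nonneg fun _ _ => sq_nonneg _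

theorem len_sq (w : Fin 3 → ℝ) : len w ^ 2 = q w := Real.sq_sqrt (q_nonneg w)

theorem t_GRV : S_GRV := by
  intro C c1 hC hc1
  refine ⟨min (1 / 128) (7 * c1 ^ 2 / 16), 1 + C / c1 + 16 * C, by positivity, ?_, ?_⟩
  · have : 0 < C / c1 := by positivity
    linarith
  intro W W' κ δ hκ1 hκ4 hδ hh _ hL1 hL2 hyp
  have hcc : 0 < C / c1 := by positivity
  have hδ0 : 0 < δ := by linarith
  have hL : 0 < len W := lt_of_lt_of_le (by positivity) hL1
  have hL' : 0 < len W' := by linarith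
  have hκ0 : 0 < κ := by linarith
  have e1 : ∑ i, (κ * W' i / len W' ^ 3 - W i / len W ^ 3) ^ 2 =
      (1 / len W - κ / len W') * (1 / len W ^ 3 - κ / len W' ^ 3) +
        len (W - W') ^ 2 * (κ / len W' ^ 3 * (1 / len W ^ 3)) := by
    have e2 : 1 / len W = 1 / len W ^ 3 * len W ^ 2 := by field_simp
    have e3 : κ / len W' = κ / len W' ^ 3 * len W' ^ 2 := by field_simp
    rw [e2, e3, len_sq, len_sq, len_sq]
    obtain ⟨A, hA⟩ : ∃ A, A = κ / len W' ^ 3 := ⟨_, rfl⟩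
    obtain ⟨B, hB⟩ : ∃ B, B = 1 / len W ^ 3 := ⟨_, rfl⟩
    have e4 : ∀ i, κ * W' i / len W' ^ 3 - W i / len W ^ 3 = A * W' i - B * W i := by
      intro i
      rw [hA, hB]
      ring
    simp only [e4]
    rw [← hA, ← hB]
    unfold q
    simp only [Fin.sum_univ_three, Pi.sub_apply]
    ring
  rw [e1]
  have hA1 : (κ / len W') ^ 3 / 16 ≤ κ / len W' ^ 3 := by
    rw [div_pow, div_div, div_le_div_iff₀ (by positivity) (by positivity)]
    have h1 : κ ^ 2 ≤ 16 := by nlinarith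
    have h2 : κ ^ 3 * len W' ^ 3 = κ ^ 2 * (κ * len W' ^ 3) := by ring
    have h3 : κ * (len W' ^ 3 * 16) = 16 * (κ * len W' ^ 3) := by ring
    rw [h2, h3]
    exact mul_le_mul_of_nonneg_right h1 (by positivity)
  have hA2 : κ / len W' ^ 3 ≤ (κ / len W') ^ 3 := by
    rw [div_pow]
    apply div_le_div_of_nonneg_right _ (by positivity)
    have h1 : 1 ≤ κ ^ 2 := by nlinarith
    have h2 : κ ^ 3 = κ ^ 2 * κ := by ring
    rw [h2]
    nlinarith
  have had : 1 / len W * (c1 * δ) ≤ 1 := by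
    rw [one_div, inv_mul_le_iff₀ hL, mul_one]
    exact hL1
  have hyp' : -(C * (1 / len W) ^ 3) ≤ 1 / len W - κ / len W' := by
    have e5 : C * (1 / len W) ^ 3 = C / len W ^ 3 := by
      rw [one_div, inv_pow]
      rfl
    rw [e5]
    exact hyp
  have h := core hC hc1 (show 0 < 1 / len W by positivity) (show 0 < κ / len W' by positivity)
    hA1 hA2 hδ hh had hyp'
  have e6 : (1 / len W) ^ 3 = 1 / len W ^ 3 := by rw [one_div, one_div, inv_pow]
  have e7 : min (1 / 128) (7 * c1 ^ 2 / 16) * δ ^ 2 / len W ^ 6 =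
      min (1 / 128) (7 * c1 ^ 2 / 16) * δ ^ 2 * (1 / len W) ^ 6 := by
    rw [one_div_pow, mul_one_div]
  rw [e7]
  rw [e6] at h
  exact h

end Pool.Agent.K1H11.UB
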